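import Mathlib
import Pool.Agent.Helper618.NR.Defs
import Pool.Agent.Helper618.NR.Final

namespace Pool.Agent.Results.MP_96b5bf_an.NumericalRadius

open Pool.Agent.Helper618.NR

/-- **Numerical radius of `C_φ` on `H²`, `φ` a hyperbolic automorphism with fixed points `ω₁`, `ω₂`.**
With `s = |ω₁ + ω₂| / 2`, `τ = 2 arsinh (|φ(0)| |ω₁ - ω₂| / (2 √(1 - |φ(0)|²)))` and
`H x = (x + 1/x) / 2`: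
the exact value (as a supremum of explicit Rayleigh quotients of finite Jacobi matrices),
the closed form `e^{τ/2}` when `|ω₁ + ω₂|² ≤ 2 (1 - e^{-τ})`,
and closed form upper and lower bounds for all other `φ`. -/
theorem result (φ : ℂ → ℂ) (ω₁ ω₂ : ℂ) (h : IsHyperbolic φ ω₁ ω₂) :
    IsLUB (quotients (‖ω₁ + ω₂‖ / 2) (tau φ ω₁ ω₂)) (numRadius φ) ∧
    (‖ω₁ + ω₂‖ ^ 2 ≤ 2 * (1 - Real.exp (-tau φ ω₁ ω₂)) →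
      numRadius φ = Real.exp (tau φ ω₁ ω₂ / 2)) ∧
    Real.exp (tau φ ω₁ ω₂ / 2) ≤ numRadius φ ∧
    (‖ω₁ + ω₂‖ ≤ ‖ω₁ - ω₂‖ →
      numRadius φ ≤ Real.exp (tau φ ω₁ ω₂ / 2) * H (1 + Real.exp (-tau φ ω₁ ω₂))) ∧
    (‖ω₁ - ω₂‖ ≤ ‖ω₁ + ω₂‖ →
      numRadius φ ≤ Real.exp (tau φ ω₁ ω₂ / 2) *
        H (‖ω₁ - ω₂‖ / ‖ω₁ + ω₂‖ / (1 + Real.exp (-tau φ ω₁ ω₂)))) ∧
    (ω₂ ≠ -ω₁ → ‖ω₁ - ω₂‖ / ‖ω₁ + ω₂‖ ≤ 1 - Real.exp (-tau φ ω₁ ω₂) →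
      Real.exp (tau φ ω₁ ω₂ / 2) *
        H (‖ω₁ - ω₂‖ / ‖ω₁ + ω₂‖ / (1 - Real.exp (-tau φ ω₁ ω₂))) ≤ numRadius φ) :=
  ⟨exact_formula φ ω₁ ω₂ h, closed_form φ ω₁ ω₂ h, spectral_lower φ ω₁ ω₂ h,
    upper_far φ ω₁ ω₂ h, upper_near φ ω₁ ω₂ h, lower_near φ ω₁ ω₂ h⟩

end Pool.Agent.Results.MP_96b5bf_an.NumericalRadius
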